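import Pool.Agent.Y269.GP.Simple
import Pool.Agent.U517.FG.Corner

/-!
# A simple C*-algebra no corner of which is finitely generated (MP_704412_an, Q1: no)

There is a unital, separable, simple C*-algebra `A` such that no finite subset of `A` generates `A`
as a C*-algebra; in particular `A` is not singly generated.  Moreover, no finitely generated
C*-subalgebra of a matrix algebra `M_n(A)` contains `p M_n(A) p`, for any `p ≠ 0`.  So no corner
`p M_n(A) p ≠ 0` (`p` a projection) is finitely generated, that is, no unital C*-algebra which is
stably isomorphic to `A` is finitely generated, while `A ⊗ K` is singly generated (Olsen-Zame).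

`CStarAlgebra A` is Mathlib's class of the (unital, complex) C*-algebras.  The algebra is simple in
the algebraic sense: it is nontrivial and its only two-sided ideals, closed or not, are `0` and `A`.
`(StarAlgebra.adjoin ℂ F).topologicalClosure` is the smallest closed star subalgebra which contains
`F` and the unit.  The topology of `M_n(A)` is the one of the entrywise norm convergence, which is
the norm topology of the C*-algebra `M_n(A)`.

The algebra `A` and its failure of finite generation are in the library `Pool/Agent/Y269/GP`; the
passage to matrix algebras and corners is new (`Pool/Agent/U517/FG/Corner.lean`).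
-/

namespace Pool.Agent.Results.MP_704412_an.NoCornerFinitelyGenerated

theorem result : ∃ (A : Type) (_ : CStarAlgebra A),
    TopologicalSpace.SeparableSpace A ∧ IsSimpleRing A ∧
    (∀ F : Set A, F.Finite → (StarAlgebra.adjoin ℂ F).topologicalClosure ≠ ⊤) ∧
    ∀ (n : ℕ) (F : Set (Matrix (Fin n) (Fin n) A)), F.Finite →
      ∀ p : Matrix (Fin n) (Fin n) A, p ≠ 0 →
        ∃ b, p * b * p ∉ (StarAlgebra.adjoin ℂ F).topologicalClosure := by
  obtain ⟨A, hA, hsep, hsim, hgen⟩ := Pool.Agent.Y269.GP.main
  exact ⟨A, hA, hsep, hsim, hgen, Pool.Agent.U517.FG.matrix_corner hgen⟩

end Pool.Agent.Results.MP_704412_an.NoCornerFinitelyGenerated
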